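import Pool.Agent.UMG.StmtsB

/-!
# Squad UMG, row PAM: matchings in which the first cycle is matched with the second one (helper16)
-/

set_option autoImplicit false

namespace Pool.Agent.UMG.B.H16

open Finset Pool.Agent.UMG Pool.Agent.UMG.B

variable {j r : ℕ} {H : Type}

/-- the permutation -/
abbrev GG (j : ℕ) (g : Equiv.Perm H) : Equiv.Perm (Fin j ⊕ (Fin j ⊕ H)) :=
  Equiv.sumCongr (finRotate j) (Equiv.sumCongr (finRotate j) g)

theorem rot_j (t : Fin j) : ((finRotate j) ^ j) t = t := by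
  apply Fin.ext
  rw [finRotate_pow_val, Nat.add_mod_right, Nat.mod_eq_of_lt t.2]

theorem rot_a (hr : r < j) (t : Fin j) :
    ((finRotate j) ^ r) (((finRotate j) ^ (j - r)) t) = t := by
  rw [← Equiv.Perm.mul_apply, ← pow_add, show r + (j - r) = j by omega, rot_j]

theorem rot_b (hr : r < j) (t : Fin j) :
    ((finRotate j) ^ (j - r)) (((finRotate j) ^ r) t) = t := by
  rw [← Equiv.Perm.mul_apply, ← pow_add, show j - r + r = j by omega, rot_j]

theorem rot_c (s : ℕ) (t : Fin j) :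
    ((finRotate j) ^ s) (finRotate j t) = finRotate j (((finRotate j) ^ s) t) := by
  rw [← Equiv.Perm.mul_apply, ← Equiv.Perm.mul_apply, pow_mul_comm']

/-- the combined matching -/
def cmb (j r : ℕ) (m : H → H) : Fin j ⊕ (Fin j ⊕ H) → Fin j ⊕ (Fin j ⊕ H)
  | Sum.inl t => Sum.inr (Sum.inl (((finRotate j) ^ r) t))
  | Sum.inr (Sum.inl t) => Sum.inl (((finRotate j) ^ (j - r)) t)
  | Sum.inr (Sum.inr h) => Sum.inr (Sum.inr (m h))

/-- the part on `H` -/
def prt (m : Fin j ⊕ (Fin j ⊕ H) → Fin j ⊕ (Fin j ⊕ H)) (h : H) : H :=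
  match m (Sum.inr (Sum.inr h)) with
  | Sum.inl _ => h
  | Sum.inr (Sum.inl _) => h
  | Sum.inr (Sum.inr h') => h'

theorem isMt_cmb (hr : r < j) {g : Equiv.Perm H} {m : H → H} (hm : IsMt g m) :
    IsMt (GG j g) (cmb j r m) := by
  refine ⟨fun h => ?_, fun h => ?_, fun h => ?_⟩
  · rcases h with t | t | h
    · simp only [cmb, rot_b hr]
    · simp only [cmb, rot_a hr]
    · simp only [cmb, hm.inv]
  · rcases h with t | t | h
    · simp [cmb]
    · simp [cmb]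
    · simp only [cmb, ne_eq, Sum.inr.injEq]
      exact hm.nfx h
  · rcases h with t | t | h
    · simp only [cmb, GG, Equiv.sumCongr_apply, Sum.map_inl, Sum.map_inr, rot_c]
    · simp only [cmb, GG, Equiv.sumCongr_apply, Sum.map_inl, Sum.map_inr, rot_c]
    · simp only [cmb, GG, Equiv.sumCongr_apply, Sum.map_inr, hm.com]

theorem com_pow {X : Type} {G : Equiv.Perm X} {m : X → X} (hm : IsMt G m) (s : ℕ) (x : X) :
    m ((G ^ s) x) = (G ^ s) (m x) := by
  induction s with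
  | zero => simp
  | succ s ih => rw [pow_succ', Equiv.Perm.mul_apply, Equiv.Perm.mul_apply, hm.com, ih]

theorem gg_inl (g : Equiv.Perm H) (s : ℕ) (t : Fin j) :
    ((GG j g) ^ s) (Sum.inl t) = Sum.inl (((finRotate j) ^ s) t) := by
  induction s with
  | zero => simp
  | succ s ih =>
    rw [pow_succ', Equiv.Perm.mul_apply, ih, pow_succ', Equiv.Perm.mul_apply]
    rfl

theorem gg_inr (g : Equiv.Perm H) (s : ℕ) (t : Fin j) :
    ((GG j g) ^ s) (Sum.inr (Sum.inl t)) = Sum.inr (Sum.inl (((finRotate j) ^ s) t)) := by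
  induction s with
  | zero => simp
  | succ s ih =>
    rw [pow_succ', Equiv.Perm.mul_apply, ih, pow_succ', Equiv.Perm.mul_apply]
    rfl

section
variable {hj : 0 < j} {hr : r < j} {g : Equiv.Perm H}
  {m : Fin j ⊕ (Fin j ⊕ H) → Fin j ⊕ (Fin j ⊕ H)}

theorem f1 (hm : IsMt (GG j g) m) (h0 : m (Sum.inl ⟨0, hj⟩) = Sum.inr (Sum.inl ⟨r, hr⟩))
    (t : Fin j) : m (Sum.inl t) = Sum.inr (Sum.inl (((finRotate j) ^ r) t)) := by
  have e1 : (Sum.inl t : Fin j ⊕ (Fin j ⊕ H)) = ((GG j g) ^ (t : ℕ)) (Sum.inl ⟨0, hj⟩) := by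
    rw [gg_inl]
    apply congrArg
    apply Fin.ext
    rw [finRotate_pow_val]
    simp [Nat.mod_eq_of_lt t.2]
  rw [e1, com_pow hm, h0, gg_inr]
  apply congrArg
  apply congrArg
  apply Fin.ext
  rw [finRotate_pow_val, finRotate_pow_val]
  show (r + (t : ℕ)) % j = _
  rw [Nat.add_comm]

theorem f2 (hm : IsMt (GG j g) m) (h0 : m (Sum.inl ⟨0, hj⟩) = Sum.inr (Sum.inl ⟨r, hr⟩))
    (t : Fin j) : m (Sum.inr (Sum.inl t)) = Sum.inl (((finRotate j) ^ (j - r)) t) := by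
  have h1 := f1 hm h0 (((finRotate j) ^ (j - r)) t)
  rw [rot_a hr] at h1
  rw [← h1, hm.inv]

theorem f3 (hm : IsMt (GG j g) m) (h0 : m (Sum.inl ⟨0, hj⟩) = Sum.inr (Sum.inl ⟨r, hr⟩))
    (h : H) : m (Sum.inr (Sum.inr h)) = Sum.inr (Sum.inr (prt m h)) := by
  have h1 := hm.inv (Sum.inr (Sum.inr h))
  unfold prt
  rcases h2 : m (Sum.inr (Sum.inr h)) with t | t | h'
  · rw [h2, f1 hm h0] at h1
    simp at h1
  · rw [h2, f2 hm h0] at h1
    simp at h1
  · rfl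

theorem isMt_prt (hm : IsMt (GG j g) m)
    (h0 : m (Sum.inl ⟨0, hj⟩) = Sum.inr (Sum.inl ⟨r, hr⟩)) : IsMt g (prt m) := by
  refine ⟨fun h => ?_, fun h e => ?_, fun h => ?_⟩
  · have h1 := hm.inv (Sum.inr (Sum.inr h))
    rw [f3 hm h0, f3 hm h0] at h1
    exact Sum.inr_injective (Sum.inr_injective h1)
  · apply hm.nfx (Sum.inr (Sum.inr h))
    rw [f3 hm h0, e]
  · have h1 := hm.com (Sum.inr (Sum.inr h))
    rw [f3 hm h0] at h1
    have h2 : (GG j g) (Sum.inr (Sum.inr h)) = Sum.inr (Sum.inr (g h)) := rfl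
    have h3 : (GG j g) (Sum.inr (Sum.inr (prt m h))) = Sum.inr (Sum.inr (g (prt m h))) := rfl
    rw [h2, h3, f3 hm h0] at h1
    exact Sum.inr_injective (Sum.inr_injective h1)

theorem cmb_prt (hm : IsMt (GG j g) m)
    (h0 : m (Sum.inl ⟨0, hj⟩) = Sum.inr (Sum.inl ⟨r, hr⟩)) : cmb j r (prt m) = m := by
  funext x
  rcases x with t | t | h
  · rw [f1 hm h0]; rfl
  · rw [f2 hm h0]; rfl
  · rw [f3 hm h0]; rfl

end

/-- **PAM** -/
theorem pam : PamStmt := by
  intro j r hj hr H g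
  refine ⟨⟨fun m => ⟨prt m.1.1, isMt_prt m.1.2 m.2⟩,
    fun m => ⟨⟨cmb j r m.1, isMt_cmb hr m.2⟩, ?_⟩, ?_, ?_⟩, ?_⟩
  · show Sum.inr (Sum.inl (((finRotate j) ^ r) ⟨0, hj⟩)) = Sum.inr (Sum.inl ⟨r, hr⟩)
    apply congrArg
    apply congrArg
    apply Fin.ext
    rw [finRotate_pow_val]
    show (0 + r) % j = r
    rw [Nat.zero_add, Nat.mod_eq_of_lt hr]
  · intro m
    apply Subtype.ext
    apply Subtype.ext
    exact cmb_prt m.1.2 m.2
  · intro m
    apply Subtype.ext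
    funext h
    rfl
  · intro m
    exact ⟨f1 m.1.2 m.2, f2 m.1.2 m.2, f3 m.1.2 m.2⟩

end Pool.Agent.UMG.B.H16
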