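import Pool.Agent.UMG.StmtsA

set_option autoImplicit false

namespace Pool.Agent.UMG.A.H16

open Finset Filter

theorem asy_rpow (η C : ℝ) (hη : 0 < η) : ∀ᶠ x : ℝ in atTop, C * x ^ (1 - η) ≤ x / 4 := by
  have h1 : Tendsto (fun x : ℝ => C * x ^ (-η)) atTop (nhds (C * 0)) :=
    (tendsto_rpow_neg_atTop hη).const_mul C
  have h2 := h1.eventually_lt_const (show C * 0 < 1 / 4 by norm_num)
  filter_upwards [h2, eventually_gt_atTop (0 : ℝ)] with x hx hx0
  have h3 : x ^ (1 - η) = x * x ^ (-η) := by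
    rw [sub_eq_add_neg, Real.rpow_add hx0, Real.rpow_one]
  rw [h3]
  nlinarith

theorem asy_pow (K : ℕ) : ∀ᶠ x : ℝ in atTop, 3 * (x + 1) ^ (K + 1) ≤ Real.exp (x / 4) := by
  have h1 : Tendsto (fun x : ℝ => (x + 1) / 4) atTop atTop :=
    (tendsto_atTop_add_const_right atTop (1 : ℝ) tendsto_id).atTop_div_const (by norm_num)
  have h2 := (Real.tendsto_pow_mul_exp_neg_atTop_nhds_zero (K + 1)).comp h1
  have h0 : 0 < Real.exp (-(1 / 4)) / (3 * 4 ^ (K + 1)) := by positivity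
  have h3 := h2.eventually_lt_const h0
  filter_upwards [h3] with x hx
  have h4 : ((x + 1) / 4) ^ (K + 1) * Real.exp (-((x + 1) / 4)) <
      Real.exp (-(1 / 4)) / (3 * 4 ^ (K + 1)) := hx
  rw [lt_div_iff₀ (by positivity), div_pow] at h4
  have h5 : (x + 1) ^ (K + 1) / 4 ^ (K + 1) * Real.exp (-((x + 1) / 4)) * (3 * 4 ^ (K + 1)) =
      3 * (x + 1) ^ (K + 1) * Real.exp (-((x + 1) / 4)) := by
    have h6 : (4 : ℝ) ^ (K + 1) ≠ 0 := by positivity
    field_simp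
  rw [h5] at h4
  have h7 : Real.exp (-((x + 1) / 4)) * Real.exp ((x + 1) / 4) = 1 := by
    rw [← Real.exp_add, neg_add_cancel, Real.exp_zero]
  have h8 : Real.exp (-(1 / 4)) * Real.exp ((x + 1) / 4) = Real.exp (x / 4) := by
    rw [← Real.exp_add]
    congr 1
    ring
  calc 3 * (x + 1) ^ (K + 1)
      = 3 * (x + 1) ^ (K + 1) * Real.exp (-((x + 1) / 4)) * Real.exp ((x + 1) / 4) := by
        rw [mul_assoc, h7, mul_one]
    _ ≤ Real.exp (-(1 / 4)) * Real.exp ((x + 1) / 4) :=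
        mul_le_mul_of_nonneg_right h4.le (Real.exp_pos _).le
    _ = Real.exp (x / 4) := h8

/-- **ASY** -/
theorem asy : AsyStmt := by
  intro η C K hη _
  have h := tendsto_natCast_atTop_atTop (R := ℝ) |>.eventually
    ((asy_rpow η C hη).and (asy_pow K))
  obtain ⟨M0, hM0⟩ := eventually_atTop.1 h
  refine ⟨M0, fun M hM => ?_⟩
  obtain ⟨h1, h2⟩ := hM0 M hM
  have h3 : 3 * ((M : ℝ) + 1) * ((M : ℝ) + 1) ^ K = 3 * ((M : ℝ) + 1) ^ (K + 1) := by ring
  rw [h3]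
  calc 3 * ((M : ℝ) + 1) ^ (K + 1) * Real.exp (C * (M : ℝ) ^ (1 - η))
      ≤ Real.exp ((M : ℝ) / 4) * Real.exp ((M : ℝ) / 4) :=
        mul_le_mul h2 (Real.exp_le_exp.2 h1) (Real.exp_pos _).le (Real.exp_pos _).le
    _ = Real.exp ((M : ℝ) / 2) := by
        rw [← Real.exp_add]
        congr 1
        ring

end Pool.Agent.UMG.A.H16
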