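import Pool.Agent.UMG.StmtsA

set_option autoImplicit false

namespace Pool.Agent.UMG.A.H16

open Finset

theorem e_nonneg (w : ℕ → ℝ) (hw : ∀ l, 0 ≤ w l) (n : ℕ) : 0 ≤ E w n := by
  induction n using Nat.strong_induction_on with
  | _ n ih =>
    cases n with
    | zero =>
      rw [E]
      exact zero_le_one
    | succ n =>
      rw [E]
      apply smul_nonneg
      · positivity
      · exact sum_nonneg fun i _ => mul_nonneg (hw _) (ih _ (by omega))

/-- **CMB** -/
theorem cmb (hadd : AddStmt) (hshi : ShiStmt) (hexp : ExpStmt) : CmbStmt := by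
  intro w w' n hw hw' h1
  have e1 : (fun l => w l + w' l) = fun l => w' l + w l := by
    funext l
    exact add_comm _ _
  rw [e1, hadd ℝ w' w n]
  have hE := e_nonneg w hw n
  have h2 : ∀ r ∈ range (n + 1), E w' r * E w (n - r) ≤ E w n * (E w' r * ((n : ℝ) / w 1) ^ r) := by
    intro r hr
    have hrn : r ≤ n := by
      have := mem_range.1 hr
      omega
    have h3 := hshi w n r hw hrn
    have h4 : E w (n - r) ≤ ((n : ℝ) / w 1) ^ r * E w n := by
      rw [div_pow, div_mul_eq_mul_div, le_div_iff₀ (pow_pos h1 r), mul_comm]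
      exact h3
    calc E w' r * E w (n - r) ≤ E w' r * (((n : ℝ) / w 1) ^ r * E w n) :=
          mul_le_mul_of_nonneg_left h4 (e_nonneg w' hw' r)
      _ = E w n * (E w' r * ((n : ℝ) / w 1) ^ r) := by ring
  refine (sum_le_sum h2).trans ?_
  rw [← mul_sum]
  exact mul_le_mul_of_nonneg_left (hexp w' n ((n : ℝ) / w 1) hw' (by positivity)) hE

end Pool.Agent.UMG.A.H16
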